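import Pool.Agent.Q295.LR.Sub

/-!
# Submatrices of Boolean matrices with large communication complexity: copies
-/

set_option autoImplicit false

namespace Pool.Agent.Q295.LR

open Finset

/-- from a shattered set of rows to submatrices -/
theorem copy_of_shatter {X Y : Type} (F : X → Y → Bool) (R : X → Y → Prop) (d : ℕ)
    (g : Fin d → X) (hg : Function.Injective g)
    (h : ∀ t : Fin d → Bool, ∃ y, (∀ p, R (g p) y) ∧ ∀ p, F (g p) y = t p)
    (m n : ℕ) (A : Fin m → Fin n → Bool)
    (hA : m + Nat.clog 2 n ≤ d ∨ (m ≤ d ∧ Function.Injective fun q p => A p q)) :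
    ∃ (i : Fin m → X) (j : Fin n → Y), Function.Injective i ∧ Function.Injective j ∧
      (∀ p q, R (i p) (j q)) ∧ ∀ p q, F (i p) (j q) = A p q := by
  classical
  have h1 : ∀ (m : ℕ) (A : Fin m → Fin n → Bool), m ≤ d → Function.Injective (fun q p => A p q) →
      ∃ (i : Fin m → X) (j : Fin n → Y), Function.Injective i ∧ Function.Injective j ∧
      (∀ p q, R (i p) (j q)) ∧ ∀ p q, F (i p) (j q) = A p q := by
    intro m A hm hinj
    have h2 : ∀ q : Fin n, ∃ y, (∀ p, R (g p) y) ∧
        ∀ p : Fin d, F (g p) y = if hp : (p : ℕ) < m then A ⟨p, hp⟩ q else false :=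
      fun q => h _
    choose j hj1 hj2 using h2
    refine ⟨fun p => g (Fin.castLE hm p), j, hg.comp (Fin.castLE_injective hm), ?_,
      fun p q => hj1 q _, ?_⟩
    · intro q q' hq
      apply hinj
      funext p
      have h3 := hj2 q (Fin.castLE hm p)
      have h4 := hj2 q' (Fin.castLE hm p)
      rw [hq] at h3
      rw [h3] at h4
      simpa using h4
    · intro p q
      have h3 := hj2 q (Fin.castLE hm p)
      simpa using h3
  rcases hA with hA | ⟨hm, hinj⟩
  · let A' : Fin (m + Nat.clog 2 n) → Fin n → Bool := fun p q =>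
      if hp : (p : ℕ) < m then A ⟨p, hp⟩ q else Nat.testBit (q : ℕ) ((p : ℕ) - m)
    obtain ⟨i, j, hi, hj, hR, hF⟩ := h1 _ A' hA (by
      intro q q' hq
      apply Fin.ext
      apply Nat.eq_of_testBit_eq
      intro l
      by_cases hl : l < Nat.clog 2 n
      · have h2 := congrFun hq ⟨m + l, by omega⟩
        simpa [A'] using h2
      · have h3 : n ≤ 2 ^ l := (Nat.le_pow_clog (by norm_num) n).trans
          (Nat.pow_le_pow_right (by norm_num) (by omega))
        rw [Nat.testBit_lt_two_pow (lt_of_lt_of_le q.2 h3),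
          Nat.testBit_lt_two_pow (lt_of_lt_of_le q'.2 h3)])
    refine ⟨fun p => i (Fin.castAdd _ p), j, hi.comp (Fin.castAdd_injective _ _), hj,
      fun p q => hR _ _, fun p q => ?_⟩
    rw [hF]
    simp [A']
  · exact h1 m A hm hinj

theorem leaf_copies {K : Type} [Field K] {X Y : Type} [Fintype X] [Fintype Y]
    (F : X → Y → Bool)
    (owner : List Bool → Bool) (a : List Bool → X → Bool) (b : List Bool → Y → Bool)
    (c d : ℕ) (hd : 1 ≤ d)
    (h : ¬ HasProtocol F (c + (d - 1) * Nat.clog 2 ((mat K F).rank + 1) + 1)) :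
    ∃ w : List Bool, ∀ (m n : ℕ) (A : Fin m → Fin n → Bool),
      (m + Nat.clog 2 n ≤ d ∨ (m ≤ d ∧ Function.Injective fun q p => A p q)) →
      ∃ (i : Fin m → X) (j : Fin n → Y), Function.Injective i ∧ Function.Injective j ∧
        (∀ p q, run owner a b c (i p) (j q) = w) ∧ ∀ p q, F (i p) (j q) = A p q := by
  obtain ⟨w, g, hg, hs⟩ := leaf (K := K) F owner a b c d hd h
  exact ⟨w, fun m n A hA => copy_of_shatter F (fun x y => run owner a b c x y = w) d g hg hs m n
    A hA⟩

/-! ### a matrix with determinant `2 ^ k` -/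

/-- the `3 × 3` matrix with determinant two -/
def C3 : Matrix (Fin 3) (Fin 3) ℤ := !![1, 1, 0; 0, 1, 1; 1, 0, 1]

theorem det_C3 : C3.det = 2 := by
  simp [C3, Matrix.det_fin_three]

/-- the block matrix -/
def blk (k : ℕ) : Matrix (Fin (3 * k)) (Fin (3 * k)) ℤ :=
  (Matrix.blockDiagonal fun _ : Fin k => C3).submatrix finProdFinEquiv.symm finProdFinEquiv.symm

theorem det_blk (k : ℕ) : (blk k).det = 2 ^ k := by
  unfold blk
  rw [Matrix.det_submatrix_equiv_self, Matrix.det_blockDiagonal]
  simp [det_C3]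

theorem blk_bool (k : ℕ) (p q : Fin (3 * k)) : blk k p q = 0 ∨ blk k p q = 1 := by
  unfold blk
  rw [Matrix.submatrix_apply]
  rcases finProdFinEquiv.symm p with ⟨p1, p2⟩
  rcases finProdFinEquiv.symm q with ⟨q1, q2⟩
  rw [Matrix.blockDiagonal_apply]
  by_cases h : p2 = q2
  · simp only [h, if_true]
    fin_cases p1 <;> fin_cases q1 <;> simp [C3]
  · simp [h]

/-- the Boolean matrix of `blk` -/
def blkB (k : ℕ) : Fin (3 * k) → Fin (3 * k) → Bool := fun p q => decide (blk k p q = 1)

theorem blkB_spec (k : ℕ) (p q : Fin (3 * k)) :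
    (if blkB k p q then (1 : ℤ) else 0) = blk k p q := by
  rcases blk_bool k p q with h | h <;> simp [blkB, h]

theorem blkB_inj (k : ℕ) : Function.Injective fun q p => blkB k p q := by
  intro q q' hq
  by_contra hne
  have h1 : (blk k).det = 0 := by
    apply Matrix.det_zero_of_column_eq hne
    intro p
    rw [← blkB_spec, ← blkB_spec]
    have := congrFun hq p
    simp only at this
    rw [this]
  rw [det_blk] at h1
  exact absurd h1 (by positivity)

/-! ### the protocol which sends a row of `S` or a column of `T` -/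

section ST
variable {X Y : Type} (S : Finset X) (T : Finset Y) (e : ℕ)

open Classical in
/-- the number of an element of `S` -/
noncomputable def num (S : Finset X) (x : X) : ℕ :=
  if h : x ∈ S then (S.equivFin ⟨x, h⟩ : ℕ) else 0

theorem num_lt (x : X) (hx : x ∈ S) : num S x < S.card := by
  unfold num
  rw [dif_pos hx]
  exact (S.equivFin ⟨x, hx⟩).2

theorem num_inj (x x' : X) (hx : x ∈ S) (hx' : x' ∈ S) (h : num S x = num S x') : x = x' := by
  unfold num at h
  rw [dif_pos hx, dif_pos hx'] at h
  exact congrArg Subtype.val (S.equivFin.injective (Fin.ext h))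

/-- the owner -/
def own1 (t : List Bool) : Bool :=
  if t.length = 0 then true else if t.length = 1 then false else t.headD false

open Classical in
/-- the bits of Alice -/
noncomputable def al (t : List Bool) (x : X) : Bool :=
  if t.length = 0 then decide (x ∈ S) else Nat.testBit (num S x) (t.length - 2)

open Classical in
/-- the bits of Bob -/
noncomputable def bo (t : List Bool) (y : Y) : Bool :=
  if t.length = 1 then decide (y ∈ T) else
    if y ∈ T then Nat.testBit (num T y) (t.length - 2) else false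

theorem num_bits {A : Type} (S : Finset A) (hS : S.card ≤ 2 ^ e) (x x' : A) (hx : x ∈ S)
    (hx' : x' ∈ S) (h : ∀ k, k < e → Nat.testBit (num S x) k = Nat.testBit (num S x') k) :
    x = x' := by
  apply num_inj S x x' hx hx'
  apply Nat.eq_of_testBit_eq
  intro k
  by_cases hk : k < e
  · exact h k hk
  · have hpow : 2 ^ e ≤ 2 ^ k := Nat.pow_le_pow_right (by norm_num) (by omega)
    rw [Nat.testBit_lt_two_pow (lt_of_lt_of_le (num_lt S x hx) (hS.trans hpow)),
      Nat.testBit_lt_two_pow (lt_of_lt_of_le (num_lt S x' hx') (hS.trans hpow))]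

theorem own1_eq (t : List Bool) (k : ℕ) (ht : t.length = 2 + k) : own1 t = t.headD false := by
  unfold own1
  rw [if_neg (by omega), if_neg (by omega)]

theorem al_eq (t : List Bool) (k : ℕ) (ht : t.length = 2 + k) (x : X) :
    al S t x = Nat.testBit (num S x) k := by
  unfold al
  rw [if_neg (by omega), ht, Nat.add_sub_cancel_left]

open Classical in
theorem bo_eq (t : List Bool) (k : ℕ) (ht : t.length = 2 + k) (y : Y) :
    bo T t y = if y ∈ T then Nat.testBit (num T y) k else false := by
  unfold bo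
  rw [if_neg (by omega), ht, Nat.add_sub_cancel_left]

open Classical in
theorem run_ST (k : ℕ) (x : X) (y : Y) :
    run own1 (al S) (bo T) (2 + k) x y = [decide (x ∈ S), decide (y ∈ T)] ++
      (List.range k).map fun l => if x ∈ S then Nat.testBit (num S x) l else
        if y ∈ T then Nat.testBit (num T y) l else false := by
  induction k with
  | zero =>
    rw [Nat.add_zero, show (2 : ℕ) = 0 + 1 + 1 from rfl, run_succ, run_succ]
    simp [run, own1, al, bo]
  | succ k ih =>
    rw [← Nat.add_assoc, run_succ]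
    have hl := run_length own1 (al S) (bo T) (2 + k) x y
    have ho : own1 (run own1 (al S) (bo T) (2 + k) x y) = decide (x ∈ S) := by
      rw [own1_eq _ k hl, ih]
      simp
    have ha := al_eq S _ k hl x
    have hb := bo_eq T _ k hl y
    rw [ho, ha, hb, ih, List.append_assoc]
    congr 1
    rw [List.range_succ, List.map_append]
    congr 1
    simp

theorem run_ST_row (hS : S.card ≤ 2 ^ e) (x x' : X) (y y' : Y) (hx : x ∈ S)
    (h : run own1 (al S) (bo T) (2 + e) x y = run own1 (al S) (bo T) (2 + e) x' y') :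
    x = x' := by
  classical
  rw [run_ST, run_ST] at h
  obtain ⟨h1, h2⟩ := List.append_inj h rfl
  have h3 : x' ∈ S := by
    have := (List.cons.inj h1).1
    rw [decide_eq_true hx] at this
    exact of_decide_eq_true this.symm
  apply num_bits e S hS x x' hx h3
  intro k hk
  have := List.map_inj_left.1 h2 k (List.mem_range.2 hk)
  rw [if_pos hx, if_pos h3] at this
  exact this

theorem run_ST_col (hT : T.card ≤ 2 ^ e) (x x' : X) (y y' : Y) (hx : x ∉ S) (hy : y ∈ T)
    (h : run own1 (al S) (bo T) (2 + e) x y = run own1 (al S) (bo T) (2 + e) x' y') :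
    y = y' := by
  classical
  rw [run_ST, run_ST] at h
  obtain ⟨h1, h2⟩ := List.append_inj h rfl
  have h3 : x' ∉ S := by
    have := (List.cons.inj h1).1
    rw [decide_eq_false hx] at this
    exact of_decide_eq_false this.symm
  have h4 : y' ∈ T := by
    have := (List.cons.inj (List.cons.inj h1).2).1
    rw [decide_eq_true hy] at this
    exact of_decide_eq_true this.symm
  apply num_bits e T hT y y' hy h4
  intro k hk
  have := List.map_inj_left.1 h2 k (List.mem_range.2 hk)
  rw [if_neg hx, if_neg h3, if_pos hy, if_pos h4] at this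
  exact this

end ST

/-- copies outside of few rows and columns -/
theorem outside {K : Type} [Field K] {X Y : Type} [Fintype X] [Fintype Y]
    (F : X → Y → Bool) (e d : ℕ) (hd : 1 ≤ d)
    (h : ¬ HasProtocol F (2 + e + (d - 1) * Nat.clog 2 ((mat K F).rank + 1) + 1))
    (S : Finset X) (T : Finset Y) (hS : S.card ≤ 2 ^ e) (hT : T.card ≤ 2 ^ e)
    (m n : ℕ) (hm : 2 ≤ m) (hn : 2 ≤ n) (A : Fin m → Fin n → Bool)
    (hA : m + Nat.clog 2 n ≤ d ∨ (m ≤ d ∧ Function.Injective fun q p => A p q)) :
    ∃ (i : Fin m → X) (j : Fin n → Y), Function.Injective i ∧ Function.Injective j ∧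
      (∀ p, i p ∉ S) ∧ (∀ q, j q ∉ T) ∧ ∀ p q, F (i p) (j q) = A p q := by
  obtain ⟨w, hw⟩ := leaf_copies (K := K) F own1 (al S) (bo T) (2 + e) d hd h
  obtain ⟨i, j, hi, hj, hr, hF⟩ := hw m n A hA
  have h0 : ∀ p, i p ∉ S := by
    intro p hp
    have h1 := run_ST_row S T e hS (i p) (i ⟨0, by omega⟩) (j ⟨0, by omega⟩) (j ⟨0, by omega⟩) hp
      ((hr _ _).trans (hr _ _).symm)
    have h2 := run_ST_row S T e hS (i p) (i ⟨1, by omega⟩) (j ⟨0, by omega⟩) (j ⟨0, by omega⟩) hp
      ((hr _ _).trans (hr _ _).symm)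
    have h3 := hi (h1.symm.trans h2)
    simp at h3
  refine ⟨i, j, hi, hj, h0, ?_, hF⟩
  intro q hq
  have h1 := run_ST_col S T e hT (i ⟨0, by omega⟩) (i ⟨0, by omega⟩) (j q) (j ⟨0, by omega⟩)
    (h0 _) hq ((hr _ _).trans (hr _ _).symm)
  have h2 := run_ST_col S T e hT (i ⟨0, by omega⟩) (i ⟨0, by omega⟩) (j q) (j ⟨1, by omega⟩)
    (h0 _) hq ((hr _ _).trans (hr _ _).symm)
  have h3 := hj (h1.symm.trans h2)
  simp at h3

end Pool.Agent.Q295.LR
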