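import Mathlib

/-!
# Submatrices of Boolean matrices with large communication complexity (MP_e5d384_lc, helper295)
-/

set_option autoImplicit false

namespace Pool.Agent.Q295.LR

open Finset

/-- the `0/1` matrix of `F` over `K` -/
def mat (K : Type) [Field K] {X Y : Type} (F : X → Y → Bool) : Matrix X Y K :=
  Matrix.of fun x y => if F x y then (1 : K) else 0

/-- the transcript after `c` rounds: in every round the owner of the current transcript appends a
bit, which depends only on the owner's input and on the transcript -/
def run {X Y : Type} (owner : List Bool → Bool) (a : List Bool → X → Bool)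
    (b : List Bool → Y → Bool) (c : ℕ) (x : X) (y : Y) : List Bool :=
  Nat.iterate (fun t : List Bool => t ++ [if owner t then a t x else b t y]) c []

/-- `F` has a deterministic protocol with `c` bits -/
def HasProtocol {X Y : Type} (F : X → Y → Bool) (c : ℕ) : Prop :=
  ∃ (owner : List Bool → Bool) (a : List Bool → X → Bool) (b : List Bool → Y → Bool)
    (out : List Bool → Bool), ∀ x y, out (run owner a b c x y) = F x y

section run
variable {X Y : Type} (owner : List Bool → Bool) (a : List Bool → X → Bool)
    (b : List Bool → Y → Bool)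

theorem run_succ (c : ℕ) (x : X) (y : Y) :
    run owner a b (c + 1) x y = run owner a b c x y ++
      [if owner (run owner a b c x y) then a (run owner a b c x y) x
        else b (run owner a b c x y) y] := by
  unfold run
  rw [Function.iterate_succ_apply']

theorem run_length (c : ℕ) (x : X) (y : Y) : (run owner a b c x y).length = c := by
  induction c with
  | zero => rfl
  | succ c ih => rw [run_succ, List.length_append, ih]; rfl

theorem run_rect (c : ℕ) (x x' : X) (y y' : Y)
    (h : run owner a b c x y' = run owner a b c x' y) :
    run owner a b c x y = run owner a b c x y' := by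
  induction c with
  | zero => rfl
  | succ c ih =>
    rw [run_succ, run_succ] at h
    obtain ⟨h1, h2⟩ := List.append_inj' h rfl
    have h3 := ih h1
    rw [run_succ, run_succ, h3]
    congr 1
    congr 1
    by_cases ho : owner (run owner a b c x y') = true
    · rw [if_pos ho, if_pos ho]
    · rw [if_neg ho, if_neg ho]
      rw [← h1, if_neg ho, if_neg ho] at h2
      exact (List.cons.inj h2).1.symm

end run

/-- a protocol of `c` rounds, followed in every leaf by the number of the class of the column
(`m` bits) and the value -/
theorem protocol_of_classes {X Y : Type} (F : X → Y → Bool) (c m : ℕ)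
    (owner : List Bool → Bool) (a : List Bool → X → Bool) (b : List Bool → Y → Bool)
    (κ : List Bool → Y → ℕ)
    (h1 : ∀ x y, κ (run owner a b c x y) y < 2 ^ m)
    (h2 : ∀ x x' y y', run owner a b c x y = run owner a b c x' y' →
      κ (run owner a b c x y) y = κ (run owner a b c x y) y' → F x y = F x y') :
    HasProtocol F (c + m + 1) := by
  classical
  let w : List Bool → Y → ℕ → List Bool := fun t y k => (List.range k).map (Nat.testBit (κ t y))
  let own : List Bool → Bool := fun t =>
    if t.length < c then owner t else decide (c + m ≤ t.length)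
  let aa : List Bool → X → Bool := fun t x =>
    if t.length < c then a t x else
      if h : ∃ y x', run owner a b c x' y = t.take c ∧ w (t.take c) y m = t.drop c then
        F x h.choose else false
  let bb : List Bool → Y → Bool := fun t y =>
    if t.length < c then b t y else Nat.testBit (κ (t.take c) y) (t.length - c)
  have hA : ∀ x y k, k ≤ c → run own aa bb k x y = run owner a b k x y := by
    intro x y k
    induction k with
    | zero => intro _; rfl
    | succ k ih =>
      intro hk
      rw [run_succ, run_succ, ih (by omega)]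
      have hl := run_length owner a b k x y
      have e1 : own (run owner a b k x y) = owner (run owner a b k x y) := by
        simp only [own]
        exact if_pos (by rw [hl]; omega)
      have e2 : aa (run owner a b k x y) x = a (run owner a b k x y) x := by
        simp only [aa]
        exact if_pos (by rw [hl]; omega)
      have e3 : bb (run owner a b k x y) y = b (run owner a b k x y) y := by
        simp only [bb]
        exact if_pos (by rw [hl]; omega)
      rw [e1, e2, e3]
  have hB : ∀ x y k, k ≤ m → run own aa bb (c + k) x y =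
      run owner a b c x y ++ w (run owner a b c x y) y k := by
    intro x y k
    induction k with
    | zero =>
      intro _
      rw [Nat.add_zero, hA x y c le_rfl]
      simp [w]
    | succ k ih =>
      intro hk
      rw [← Nat.add_assoc, run_succ, ih (by omega)]
      have hl := run_length owner a b c x y
      have hlw : (w (run owner a b c x y) y k).length = k := by simp [w]
      have hlen : (run owner a b c x y ++ w (run owner a b c x y) y k).length = c + k := by
        rw [List.length_append, hl, hlw]
      have htake : (run owner a b c x y ++ w (run owner a b c x y) y k).take c =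
          run owner a b c x y := by
        rw [List.take_append_of_le_length (by rw [hl])]
        exact List.take_of_length_le (by rw [hl])
      have ho : own (run owner a b c x y ++ w (run owner a b c x y) y k) = false := by
        simp only [own]
        rw [if_neg (by rw [hlen]; omega)]
        exact decide_eq_false (by rw [hlen]; omega)
      have hb : bb (run owner a b c x y ++ w (run owner a b c x y) y k) y =
          Nat.testBit (κ (run owner a b c x y) y) k := by
        simp only [bb]
        rw [if_neg (by rw [hlen]; omega), htake, hlen, Nat.add_sub_cancel_left]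
      rw [ho, hb, List.append_assoc]
      congr 1
      simp only [w, List.range_succ, List.map_append, List.map_cons, List.map_nil]
      rfl
  refine ⟨own, aa, bb, fun t => t.getLastD false, fun x y => ?_⟩
  rw [run_succ, hB x y m le_rfl]
  have hl := run_length owner a b c x y
  have hlw : (w (run owner a b c x y) y m).length = m := by simp [w]
  have hlen : (run owner a b c x y ++ w (run owner a b c x y) y m).length = c + m := by
    rw [List.length_append, hl, hlw]
  have htake : (run owner a b c x y ++ w (run owner a b c x y) y m).take c =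
      run owner a b c x y := by
    rw [List.take_append_of_le_length (by rw [hl])]
    exact List.take_of_length_le (by rw [hl])
  have hdrop : (run owner a b c x y ++ w (run owner a b c x y) y m).drop c =
      w (run owner a b c x y) y m := by
    rw [List.drop_append_of_le_length (by rw [hl]), List.drop_of_length_le (by rw [hl])]
    rfl
  have ho : own (run owner a b c x y ++ w (run owner a b c x y) y m) = true := by
    simp only [own]
    rw [if_neg (by rw [hlen]; omega)]
    exact decide_eq_true (by rw [hlen])
  rw [ho]
  have hex : ∃ y' x', run owner a b c x' y' = run owner a b c x y ∧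
      w (run owner a b c x y) y' m = w (run owner a b c x y) y m := ⟨y, x, rfl, rfl⟩
  have haa : aa (run owner a b c x y ++ w (run owner a b c x y) y m) x = F x hex.choose := by
    simp only [aa]
    rw [if_neg (by rw [hlen]; omega)]
    simp only [htake, hdrop]
    rw [dif_pos hex]
  rw [if_pos rfl, haa]
  obtain ⟨x', hx', hw⟩ := hex.choose_spec
  have hκ : κ (run owner a b c x y) y = κ (run owner a b c x y) hex.choose := by
    have hb1 := h1 x y
    have hb2 := h1 x' hex.choose
    rw [hx'] at hb2
    apply Nat.eq_of_testBit_eq
    intro i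
    by_cases hi : i < m
    · have := List.map_inj_left.1 hw i (List.mem_range.2 hi)
      exact this.symm
    · have hpow : 2 ^ m ≤ 2 ^ i := Nat.pow_le_pow_right (by norm_num) (not_lt.1 hi)
      rw [Nat.testBit_lt_two_pow (lt_of_lt_of_le hb1 hpow),
        Nat.testBit_lt_two_pow (lt_of_lt_of_le hb2 hpow)]
  have hF := h2 x x' y hex.choose hx'.symm hκ
  simp [hF]

/-! ### a basis of the rows of a part of the matrix -/

theorem exists_rows {K : Type} [Field K] {X Y : Type} [Fintype X] [Fintype Y]
    (M : Matrix X Y K) (S : Set X) :
    ∃ n : ℕ, n ≤ M.rank ∧ ∃ g : Fin n → X, (∀ i, g i ∈ S) ∧ Function.Injective g ∧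
      ∀ y y', (∀ i, M (g i) y = M (g i) y') → ∀ x ∈ S, M x y = M x y' := by
  classical
  obtain ⟨f, hf1, hf2, hf3⟩ := Submodule.exists_fun_fin_finrank_span_eq K (M '' S)
  refine ⟨Module.finrank K (Submodule.span K (M '' S)), ?_, fun i => (hf1 i).choose,
    fun i => (hf1 i).choose_spec.1, ?_, ?_⟩
  · rw [Matrix.rank_eq_finrank_span_row]
    apply Submodule.finrank_mono
    apply Submodule.span_mono
    rintro _ ⟨x, _, rfl⟩
    exact ⟨x, rfl⟩
  · intro i j hij
    apply hf3.injective
    rw [← (hf1 i).choose_spec.2, ← (hf1 j).choose_spec.2]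
    exact congrArg M hij
  · intro y y' h x hx
    have h1 : M x ∈ Submodule.span K (Set.range f) := by
      rw [hf2]
      exact Submodule.subset_span ⟨x, hx, rfl⟩
    let E : Submodule K (Y → K) :=
      { carrier := {v | v y = v y'}
        add_mem' := by
          intro u v hu hv
          show u y + v y = u y' + v y'
          rw [show u y = u y' from hu, show v y = v y' from hv]
        zero_mem' := rfl
        smul_mem' := by
          intro k v hv
          show k * v y = k * v y'
          rw [show v y = v y' from hv] }
    have h2 : Submodule.span K (Set.range f) ≤ E := by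
      rw [Submodule.span_le]
      rintro _ ⟨i, rfl⟩
      show f i y = f i y'
      rw [← (hf1 i).choose_spec.2]
      exact h i
    exact h2 h1

theorem sum_choose_le (n m : ℕ) : ∑ k ∈ Finset.Iic m, n.choose k ≤ (n + 1) ^ m := by
  induction m with
  | zero =>
    have : Finset.Iic 0 = ({0} : Finset ℕ) := by ext x; simp
    rw [this]
    simp
  | succ m ih =>
    have h1 : Finset.Iic (m + 1) = insert (m + 1) (Finset.Iic m) := by
      ext x
      simp only [Finset.mem_Iic, Finset.mem_insert]
      omega
    rw [h1, Finset.sum_insert (by simp)]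
    have h2 := Nat.choose_le_pow n (m + 1)
    have h3 : n ^ (m + 1) ≤ n * (n + 1) ^ m := by
      rw [pow_succ, mul_comm]
      exact Nat.mul_le_mul_left _ (Nat.pow_le_pow_left (by omega) _)
    calc n.choose (m + 1) + ∑ k ∈ Finset.Iic m, n.choose k
        ≤ n * (n + 1) ^ m + (n + 1) ^ m := by omega
      _ = (n + 1) ^ (m + 1) := by ring

theorem card_le_of_not_shatters {n d : ℕ} (hd : 1 ≤ d) (A : Finset (Finset (Fin n)))
    (h : ∀ s : Finset (Fin n), s.card = d → ¬ A.Shatters s) : A.card ≤ (n + 1) ^ (d - 1) := by
  have hv : A.vcDim ≤ d - 1 := by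
    unfold Finset.vcDim
    apply Finset.sup_le
    intro s hs
    rw [Finset.mem_shatterer] at hs
    by_contra hcon
    obtain ⟨t, ht, htc⟩ := Finset.exists_subset_card_eq (show d ≤ s.card by omega)
    exact h t htc (hs.mono_right ht)
  have h1 := A.card_le_card_shatterer
  have h2 := A.card_shatterer_le_sum_vcDim
  have h3 : ∑ k ∈ Finset.Iic A.vcDim, (Fintype.card (Fin n)).choose k ≤
      ∑ k ∈ Finset.Iic (d - 1), (Fintype.card (Fin n)).choose k := by
    apply Finset.sum_le_sum_of_subset
    intro x hx
    rw [Finset.mem_Iic] at hx ⊢
    omega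
  have h4 := sum_choose_le n (d - 1)
  rw [Fintype.card_fin] at h2 h3
  omega

/-- a set of rows is shattered, or the columns form few classes -/
theorem dichotomy {K : Type} [Field K] {X Y : Type} [Fintype X] [Fintype Y] (F : X → Y → Bool)
    (S : Set X) (T : Set Y) (d : ℕ) (hd : 1 ≤ d) :
    (∃ g : Fin d → X, (∀ i, g i ∈ S) ∧ Function.Injective g ∧
      ∀ t : Fin d → Bool, ∃ y ∈ T, ∀ p, F (g p) y = t p) ∨
    ∃ κ : Y → ℕ, (∀ y ∈ T, κ y < ((mat K F).rank + 1) ^ (d - 1)) ∧
      ∀ y ∈ T, ∀ y' ∈ T, κ y = κ y' → ∀ x ∈ S, F x y = F x y' := by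
  classical
  obtain ⟨n, hn, g, hgS, hgi, hg⟩ := exists_rows (mat K F) S
  let tr : Y → Finset (Fin n) := fun y => Finset.univ.filter fun i => F (g i) y = true
  let A : Finset (Finset (Fin n)) := (Finset.univ.filter fun y => y ∈ T).image tr
  by_cases hsh : ∃ s : Finset (Fin n), s.card = d ∧ A.Shatters s
  · left
    obtain ⟨s, hs, hA⟩ := hsh
    let e : Fin d ≃ s := (s.equivFinOfCardEq hs).symm
    refine ⟨fun p => g (e p), fun p => hgS _, ?_, ?_⟩
    · intro p q hpq
      exact e.injective (Subtype.ext (hgi hpq))
    · intro t
      obtain ⟨u, hu, hsu⟩ := hA (t := s.filter fun i => ∃ p, (e p : Fin n) = i ∧ t p = true)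
        (Finset.filter_subset _ _)
      obtain ⟨y, hy, rfl⟩ := Finset.mem_image.1 hu
      refine ⟨y, (Finset.mem_filter.1 hy).2, fun p => ?_⟩
      have h1 : (e p : Fin n) ∈ s := (e p).2
      have h2 : ((e p : Fin n) ∈ s ∩ tr y) ↔
          ((e p : Fin n) ∈ s.filter fun i => ∃ p, (e p : Fin n) = i ∧ t p = true) := by
        rw [hsu]
      have h3 : ((e p : Fin n) ∈ tr y) ↔ F (g (e p)) y = true := by simp [tr]
      rw [Finset.mem_inter, h3, Finset.mem_filter] at h2
      have h4 : (∃ p', (e p' : Fin n) = e p ∧ t p' = true) ↔ t p = true := by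
        constructor
        · rintro ⟨p', hp', ht⟩
          rw [← e.injective (Subtype.ext hp')]
          exact ht
        · intro ht
          exact ⟨p, rfl, ht⟩
      rw [h4] at h2
      have h5 : F (g (e p)) y = true ↔ t p = true := by tauto
      cases hF : F (g (e p)) y <;> cases ht : t p <;> simp_all
  · right
    push Not at hsh
    have hc : A.card ≤ ((mat K F).rank + 1) ^ (d - 1) :=
      (card_le_of_not_shatters hd A hsh).trans (Nat.pow_le_pow_left (by omega) _)
    let e := A.equivFin
    refine ⟨fun y => if h : tr y ∈ A then (e ⟨tr y, h⟩ : ℕ) else 0, ?_, ?_⟩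
    · intro y hy
      have h : tr y ∈ A := Finset.mem_image_of_mem _ (Finset.mem_filter.2 ⟨Finset.mem_univ _, hy⟩)
      simp only [dif_pos h]
      exact lt_of_lt_of_le (e ⟨tr y, h⟩).2 hc
    · intro y hy y' hy' hk x hx
      have h : tr y ∈ A := Finset.mem_image_of_mem _ (Finset.mem_filter.2 ⟨Finset.mem_univ _, hy⟩)
      have h' : tr y' ∈ A :=
        Finset.mem_image_of_mem _ (Finset.mem_filter.2 ⟨Finset.mem_univ _, hy'⟩)
      simp only [dif_pos h, dif_pos h'] at hk
      have h1 : tr y = tr y' := congrArg Subtype.val (e.injective (Fin.ext hk))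
      have h2 : ∀ i, mat K F (g i) y = mat K F (g i) y' := by
        intro i
        have h3 : i ∈ tr y ↔ i ∈ tr y' := by rw [h1]
        simp only [tr, Finset.mem_filter, Finset.mem_univ, true_and] at h3
        simp only [mat, Matrix.of_apply]
        by_cases h4 : F (g i) y = true
        · rw [if_pos h4, if_pos (h3.1 h4)]
        · rw [if_neg h4, if_neg (fun h5 => h4 (h3.2 h5))]
      have h3 := hg y y' h2 x hx
      simp only [mat, Matrix.of_apply] at h3
      cases hF : F x y <;> cases hF' : F x y' <;> simp_all

/-- **leaf theorem**: one leaf of the protocol has a shattered set of `d` rows -/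
theorem leaf {K : Type} [Field K] {X Y : Type} [Fintype X] [Fintype Y] (F : X → Y → Bool)
    (owner : List Bool → Bool) (a : List Bool → X → Bool) (b : List Bool → Y → Bool)
    (c d : ℕ) (hd : 1 ≤ d)
    (h : ¬ HasProtocol F (c + (d - 1) * Nat.clog 2 ((mat K F).rank + 1) + 1)) :
    ∃ w : List Bool, ∃ g : Fin d → X, Function.Injective g ∧
      ∀ t : Fin d → Bool, ∃ y, (∀ p, run owner a b c (g p) y = w) ∧ ∀ p, F (g p) y = t p := by
  classical
  by_contra hcon
  apply h
  let XS : List Bool → Set X := fun w => {x | ∃ y, run owner a b c x y = w}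
  let YS : List Bool → Set Y := fun w => {y | ∃ x, run owner a b c x y = w}
  have hrect : ∀ w, ∀ x ∈ XS w, ∀ y ∈ YS w, run owner a b c x y = w := by
    rintro w x ⟨y', hy'⟩ y ⟨x', hx'⟩
    rw [run_rect owner a b c x x' y y' (hy'.trans hx'.symm), hy']
  have key : ∀ w, ∃ κ : Y → ℕ, (∀ y ∈ YS w, κ y < ((mat K F).rank + 1) ^ (d - 1)) ∧
      ∀ y ∈ YS w, ∀ y' ∈ YS w, κ y = κ y' → ∀ x ∈ XS w, F x y = F x y' := by
    intro w
    rcases dichotomy (K := K) F (XS w) (YS w) d hd with ⟨g, hgS, hgi, hg⟩ | h1
    · exfalso
      apply hcon
      refine ⟨w, g, hgi, fun t => ?_⟩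
      obtain ⟨y, hy, hF⟩ := hg t
      exact ⟨y, fun p => hrect w _ (hgS p) _ hy, hF⟩
    · exact h1
  choose κ hκ1 hκ2 using key
  have hpow : ((mat K F).rank + 1) ^ (d - 1) ≤
      2 ^ ((d - 1) * Nat.clog 2 ((mat K F).rank + 1)) := by
    rw [mul_comm, pow_mul]
    exact Nat.pow_le_pow_left (Nat.le_pow_clog (by norm_num) _) _
  refine protocol_of_classes F c _ owner a b κ ?_ ?_
  · intro x y
    exact lt_of_lt_of_le (hκ1 _ y ⟨x, rfl⟩) hpow
  · intro x x' y y' hr hk
    exact hκ2 _ y ⟨x, rfl⟩ y' ⟨x', hr.symm⟩ hk x ⟨y, rfl⟩

end Pool.Agent.Q295.LR
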